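import Mathlib

/-!
# Triangles with prescribed angles congruent to their images need not be small

The Möbius transformation `T z = (2 z + 1) / (z + 2)` maps the closed unit disc homeomorphically onto
itself and satisfies `|T z - T w| = 3 |z - w| / (|z + 2| |w + 2|)`. So the vertices of a triangle congruent
to its image lie on the circle with centre `-2` and radius `√3`; hence the side opposite to the angle
`α` has length `2 √3 sin α`.
-/

set_option autoImplicit false

open Metric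
open scoped Real

namespace Pool.Agent.Results.MP_623bad_gt.NoSmallSimilar

/-- The closed unit disc of the Euclidean plane. -/
abbrev D : Type := closedBall (0 : ℂ) 1

/-- The triangle `p` is congruent to its image under `T`. -/
def CongruentToImage (T : D ≃ₜ D) (p : Fin 3 → D) : Prop :=
  ∀ i j, dist (T (p i)) (T (p j)) = dist (p i) (p j)

/-- The points `p 0, p 1, p 2` are not collinear and the interior angles of the triangle with these
vertices are `α` at `p 0`, `β` at `p 1` and `γ` at `p 2`. -/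
def HasAngles (p : Fin 3 → D) (α β γ : ℝ) : Prop :=
  AffineIndependent ℝ (fun i => ((p i : D) : ℂ)) ∧
    EuclideanGeometry.angle (p 1 : ℂ) (p 0) (p 2) = α ∧
    EuclideanGeometry.angle (p 2 : ℂ) (p 1) (p 0) = β ∧
    EuclideanGeometry.angle (p 0 : ℂ) (p 2) (p 1) = γ

lemma mem_D {z : ℂ} : z ∈ closedBall (0 : ℂ) 1 ↔ z.re ^ 2 + z.im ^ 2 ≤ 1 := by
  rw [mem_closedBall_zero_iff, ← Complex.normSq_add_mul_I, Complex.re_add_im, Complex.normSq_eq_norm_sq,
    sq_le_one_iff₀ (norm_nonneg _)]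

lemma add_ne {z : ℂ} (hz : z ∈ closedBall (0 : ℂ) 1) : z + 2 ≠ 0 := by
  intro h
  have h1 : z = -2 := by linear_combination h
  rw [h1] at hz
  simp at hz

lemma sub_ne {z : ℂ} (hz : z ∈ closedBall (0 : ℂ) 1) : 2 - z ≠ 0 := by
  intro h
  have h1 : z = 2 := by linear_combination -h
  rw [h1] at hz
  simp at hz

lemma fwd_mem {z : ℂ} (hz : z ∈ closedBall (0 : ℂ) 1) :
    (2 * z + 1) / (z + 2) ∈ closedBall (0 : ℂ) 1 := by
  have h2 := add_ne hz
  rw [mem_closedBall_zero_iff, norm_div, div_le_one (norm_pos_iff.2 h2)]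
  rw [← sq_le_sq₀ (norm_nonneg _) (norm_nonneg _), ← Complex.normSq_eq_norm_sq,
    ← Complex.normSq_eq_norm_sq, Complex.normSq_apply, Complex.normSq_apply]
  rw [mem_D] at hz
  simp
  nlinarith

lemma bwd_mem {z : ℂ} (hz : z ∈ closedBall (0 : ℂ) 1) :
    (2 * z - 1) / (2 - z) ∈ closedBall (0 : ℂ) 1 := by
  have h2 := sub_ne hz
  rw [mem_closedBall_zero_iff, norm_div, div_le_one (norm_pos_iff.2 h2)]
  rw [← sq_le_sq₀ (norm_nonneg _) (norm_nonneg _), ← Complex.normSq_eq_norm_sq,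
    ← Complex.normSq_eq_norm_sq, Complex.normSq_apply, Complex.normSq_apply]
  rw [mem_D] at hz
  simp
  nlinarith

/-- The Möbius transformation `z ↦ (2 z + 1) / (z + 2)` of the closed unit disc. -/
noncomputable def T : D ≃ₜ D where
  toFun z := ⟨(2 * (z : ℂ) + 1) / (z + 2), fwd_mem z.2⟩
  invFun z := ⟨(2 * (z : ℂ) - 1) / (2 - z), bwd_mem z.2⟩
  left_inv z := by
    apply Subtype.ext
    have h1 := add_ne z.2
    have h2 := sub_ne (fwd_mem z.2)
    simp only
    rw [div_eq_iff h2]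
    field_simp
    ring
  right_inv z := by
    apply Subtype.ext
    have h1 := sub_ne z.2
    have h2 := add_ne (bwd_mem z.2)
    simp only
    rw [div_eq_iff h2]
    field_simp
    ring
  continuous_toFun := by
    refine Continuous.subtype_mk ?_ _
    exact Continuous.div (by fun_prop) (by fun_prop) (fun z => add_ne z.2)
  continuous_invFun := by
    refine Continuous.subtype_mk ?_ _
    exact Continuous.div (by fun_prop) (by fun_prop) (fun z => sub_ne z.2)

lemma dist_T (z w : D) :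
    dist (T z) (T w) * (‖(z : ℂ) + 2‖ * ‖(w : ℂ) + 2‖) = 3 * dist z w := by
  have h1 := add_ne z.2
  have h2 := add_ne w.2
  rw [Subtype.dist_eq, Subtype.dist_eq, dist_eq_norm, dist_eq_norm, ← norm_mul, ← norm_mul]
  have h3 : (((T z : D) : ℂ) - ((T w : D) : ℂ)) * (((z : ℂ) + 2) * ((w : ℂ) + 2))
      = 3 * ((z : ℂ) - w) := by
    change ((2 * (z : ℂ) + 1) / (z + 2) - (2 * (w : ℂ) + 1) / (w + 2)) * (((z : ℂ) + 2) * ((w : ℂ) + 2))
      = 3 * ((z : ℂ) - w)
    field_simp
    ring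
  rw [h3, norm_mul]
  norm_num

/-- In a triangle inscribed in a circle with centre `-2` and radius `√3` the side opposite to the
angle `α` has length `2 √3 sin α`. -/
lemma side_eq {p q r : ℂ} (hp : ‖p + 2‖ = √3) (hq : ‖q + 2‖ = √3) (hr : ‖r + 2‖ = √3)
    (hpq : q ≠ p) (hpr : r ≠ p) :
    dist q r = 2 * √3 * Real.sin (EuclideanGeometry.angle q p r) := by
  have hangle : EuclideanGeometry.angle q p r = InnerProductGeometry.angle (q - p) (r - p) := rfl
  rw [hangle]
  set u := q - p with hu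
  set v := r - p with hv
  have hu0 : u ≠ 0 := sub_ne_zero.2 hpq
  have hv0 : v ≠ 0 := sub_ne_zero.2 hpr
  set s := Real.sin (InnerProductGeometry.angle u v) with hs
  have hs0 : 0 ≤ s := InnerProductGeometry.sin_angle_nonneg _ _
  have h1 := InnerProductGeometry.sin_angle_mul_norm_mul_norm u v
  rw [← hs] at h1
  have h2 : (s * (‖u‖ * ‖v‖)) ^ 2 = (u.re * v.im - u.im * v.re) ^ 2 := by
    rw [h1, Real.sq_sqrt]
    · simp only [Complex.inner, Complex.conj_re, Complex.conj_im, Complex.mul_re]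
      ring
    · simp only [Complex.inner, Complex.conj_re, Complex.conj_im, Complex.mul_re]
      nlinarith [sq_nonneg (u.re * v.im - u.im * v.re)]
  have hX : ‖u‖ ^ 2 = u.re ^ 2 + u.im ^ 2 := by
    rw [← Complex.normSq_eq_norm_sq, Complex.normSq_apply]; ring
  have hY : ‖v‖ ^ 2 = v.re ^ 2 + v.im ^ 2 := by
    rw [← Complex.normSq_eq_norm_sq, Complex.normSq_apply]; ring
  have hpos : 0 < ‖u‖ ^ 2 * ‖v‖ ^ 2 := by
    have := norm_pos_iff.2 hu0
    have := norm_pos_iff.2 hv0
    positivity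
  have h3 : ∀ z : ℂ, ‖z‖ = √3 → z.re ^ 2 + z.im ^ 2 = 3 := by
    intro z hz
    have : ‖z‖ ^ 2 = 3 := by rw [hz]; norm_num
    rw [← this, ← Complex.normSq_eq_norm_sq, Complex.normSq_apply]; ring
  have h0 := h3 _ hp
  have h4 := h3 _ hq
  have h5 := h3 _ hr
  have e1 : q + 2 = (p + 2) + u := by rw [hu]; ring
  have e2 : r + 2 = (p + 2) + v := by rw [hv]; ring
  rw [e1] at h4
  rw [e2] at h5
  set a := (p + 2).re
  set b := (p + 2).im
  rw [Complex.add_re, Complex.add_im] at h4 h5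
  have hA : (u.re ^ 2 + u.im ^ 2) + 2 * (a * u.re + b * u.im) = 0 := by nlinarith
  have hB : (v.re ^ 2 + v.im ^ 2) + 2 * (a * v.re + b * v.im) = 0 := by nlinarith
  have hd : dist q r ^ 2 = (u.re - v.re) ^ 2 + (u.im - v.im) ^ 2 := by
    rw [dist_eq_norm, ← Complex.normSq_eq_norm_sq, Complex.normSq_apply, hu, hv]
    simp only [Complex.sub_re, Complex.sub_im]
    ring
  have key : 12 * (u.re * v.im - u.im * v.re) ^ 2
      = (u.re ^ 2 + u.im ^ 2) * (v.re ^ 2 + v.im ^ 2) * ((u.re - v.re) ^ 2 + (u.im - v.im) ^ 2) := by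
    linear_combination (-4 * (u.re * v.im - u.im * v.re) ^ 2) * h0
      + (v.re ^ 2 + v.im ^ 2) * (2 * (a * u.re + b * u.im) - (u.re ^ 2 + u.im ^ 2)) * hA
      + (u.re ^ 2 + u.im ^ 2) * (2 * (a * v.re + b * v.im) - (v.re ^ 2 + v.im ^ 2)) * hB
      - 2 * (u.re * v.re + u.im * v.im) * (2 * (a * u.re + b * u.im) * hB
        - (v.re ^ 2 + v.im ^ 2) * hA)
  have h6 : (‖u‖ ^ 2 * ‖v‖ ^ 2) * dist q r ^ 2 = (‖u‖ ^ 2 * ‖v‖ ^ 2) * (2 * √3 * s) ^ 2 := by
    have h7 : (2 * √3 * s) ^ 2 = 12 * s ^ 2 := by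
      rw [mul_pow, mul_pow, Real.sq_sqrt (by norm_num)]; ring
    rw [h7, hd]
    have h8 : (‖u‖ ^ 2 * ‖v‖ ^ 2) * (12 * s ^ 2) = 12 * (s * (‖u‖ * ‖v‖)) ^ 2 := by ring
    rw [h8, h2, key, hX, hY]
  have h9 := mul_left_cancel₀ hpos.ne' h6
  exact (pow_left_inj₀ dist_nonneg (by positivity) two_ne_zero).1 h9

/-- If `x y = y z = x z = 3` for nonnegative numbers then all of them are `√3`. -/
lemma eq_sqrt {x y z : ℝ} (hx : 0 ≤ x) (hxy : x * y = 3) (hyz : y * z = 3) (hxz : x * z = 3) :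
    x = √3 := by
  have h1 : x ^ 2 * 3 = 3 * 3 := by
    calc x ^ 2 * 3 = x ^ 2 * (y * z) := by rw [hyz]
      _ = (x * y) * (x * z) := by ring
      _ = 3 * 3 := by rw [hxy, hxz]
  have h2 : x ^ 2 = 3 := by linarith
  rw [← h2, Real.sqrt_sq hx]

/-- **There is a homeomorphism of the closed disc such that, for every triple of angles, the triangles
with these angles which are congruent to their images are not arbitrarily small.** In fact all such
triangles have the same three sides, of lengths `2 √3 sin α`, `2 √3 sin β` and `2 √3 sin γ`. -/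
theorem result : ∃ T : D ≃ₜ D,
    (∀ α β γ : ℝ, 0 < α → 0 < β → 0 < γ → α + β + γ = π →
      ∃ ε > 0, ∀ p : Fin 3 → D, HasAngles p α β γ → (∀ i j, dist (p i) (p j) < ε) →
        ¬ CongruentToImage T p) ∧
    (∀ (α β γ : ℝ) (p : Fin 3 → D), HasAngles p α β γ → CongruentToImage T p →
      dist (p 1) (p 2) = 2 * √3 * Real.sin α ∧ dist (p 2) (p 0) = 2 * √3 * Real.sin β ∧
        dist (p 0) (p 1) = 2 * √3 * Real.sin γ) := by
  have main : ∀ (α β γ : ℝ) (p : Fin 3 → D), HasAngles p α β γ → CongruentToImage T p →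
      dist (p 1) (p 2) = 2 * √3 * Real.sin α ∧ dist (p 2) (p 0) = 2 * √3 * Real.sin β ∧
        dist (p 0) (p 1) = 2 * √3 * Real.sin γ := by
    rintro α β γ p ⟨hind, hα, hβ, hγ⟩ hc
    have hne : ∀ i j, i ≠ j → p i ≠ p j := by
      intro i j hij h
      exact hij (hind.injective (by simp only [h]))
    have hprod : ∀ i j, i ≠ j → ‖(p i : ℂ) + 2‖ * ‖(p j : ℂ) + 2‖ = 3 := by
      intro i j hij
      have h1 := dist_T (p i) (p j)
      rw [hc i j] at h1
      have h2 : dist (p i) (p j) ≠ 0 := dist_ne_zero.2 (hne i j hij)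
      apply mul_left_cancel₀ h2
      rw [h1]; ring
    have h01 := hprod 0 1 (by decide)
    have h02 := hprod 0 2 (by decide)
    have h12 := hprod 1 2 (by decide)
    have n0 : ‖(p 0 : ℂ) + 2‖ = √3 := eq_sqrt (norm_nonneg _) h01 h12 h02
    have n1 : ‖(p 1 : ℂ) + 2‖ = √3 :=
      eq_sqrt (norm_nonneg _) ((mul_comm _ _).trans h01) h02 h12
    have n2 : ‖(p 2 : ℂ) + 2‖ = √3 :=
      eq_sqrt (norm_nonneg _) ((mul_comm _ _).trans h02) h01 ((mul_comm _ _).trans h12)
    have hne' : ∀ i j, i ≠ j → (p i : ℂ) ≠ p j := fun i j hij h => hne i j hij (Subtype.ext h)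
    refine ⟨?_, ?_, ?_⟩
    · rw [← hα]
      exact side_eq n0 n1 n2 (hne' 1 0 (by decide)) (hne' 2 0 (by decide))
    · rw [← hβ]
      exact side_eq n1 n2 n0 (hne' 2 1 (by decide)) (hne' 0 1 (by decide))
    · rw [← hγ]
      exact side_eq n2 n0 n1 (hne' 0 2 (by decide)) (hne' 1 2 (by decide))
  refine ⟨T, ?_, main⟩
  intro α β γ h1 h2 h3 h4
  have hs : 0 < Real.sin α := Real.sin_pos_of_pos_of_lt_pi h1 (by linarith)
  refine ⟨2 * √3 * Real.sin α, by positivity, ?_⟩
  intro p hp hd hc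
  have := (main α β γ p hp hc).1
  have := hd 1 2
  linarith

end Pool.Agent.Results.MP_623bad_gt.NoSmallSimilar
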